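import Mathlib

set_option autoImplicit false

namespace Pool.Agent.Results.MP_7100ec_nt.Counterexample

open Classical in
/-- `a n y` is the `n`-th partial quotient (`n ≥ 1`) of `y ∈ (0,1]`, `none` if `y` has fewer than
`n` partial quotients (or `y ∉ (0,1]`). -/
noncomputable def a (n : ℕ) (y : ℝ) : Option ℕ :=
  if y ∈ Set.Ioc (0 : ℝ) 1 ∧ (fun t : ℝ => Int.fract t⁻¹)^[n - 1] y ≠ 0 then
    some ⌊((fun t : ℝ => Int.fract t⁻¹)^[n - 1] y)⁻¹⌋₊
  else none

/-- The value `[l₁, …, lₙ] = 1 / (l₁ + 1 / (l₂ + ⋯))`. -/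
noncomputable def val (l : List ℕ) : ℝ := l.foldr (fun q v => ((q : ℝ) + v)⁻¹) 0

/-- `state x n = ([c₁, …, c_{n+1}], [b₁, …, bₙ])`, or `none` if the procedure stopped earlier. -/
noncomputable def state (x : ℝ) : ℕ → Option (List ℕ × List ℕ)
  | 0 => (a 1 x).map fun q => ([q + 1], [])
  | n + 1 => (state x n).bind fun s => (a (n + 1) (x - val s.1)).bind fun b =>
      (a (n + 2) (x - val (s.2 ++ [b]))).map fun q => (s.1 ++ [q + 1], s.2 ++ [b])

/-- `c x n = cₙ` for `n ≥ 1`. -/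
noncomputable def c (x : ℝ) (n : ℕ) : Option ℕ := (state x (n - 1)).bind fun s => s.1.getLast?

/-- `b x n = bₙ = aₙ(x - [c₁, …, cₙ])` for `n ≥ 1`. -/
noncomputable def b (x : ℝ) (n : ℕ) : Option ℕ :=
  (state x (n - 1)).bind fun s => a n (x - val s.1)

lemma a_one (y : ℝ) (q : ℕ) (h0 : 0 < y) (h1 : y ≤ 1) (h2 : (q : ℝ) ≤ y⁻¹) (h3 : y⁻¹ < q + 1) :
    a 1 y = some q := by
  unfold a
  rw [if_pos ⟨⟨h0, h1⟩, by simpa using h0.ne'⟩]
  simp only [Nat.sub_self, Function.iterate_zero, id_eq, Option.some.injEq]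
  rw [Nat.floor_eq_iff (by positivity)]
  exact ⟨h2, h3⟩

lemma a_two (y : ℝ) (p : ℤ) (q : ℕ) (h0 : 0 < y) (h1 : y ≤ 1) (h2 : (p : ℝ) < y⁻¹)
    (h3 : y⁻¹ < p + 1) (h4 : (q : ℝ) ≤ (y⁻¹ - p)⁻¹) (h5 : (y⁻¹ - p)⁻¹ < q + 1) :
    a 2 y = some q := by
  have e : Int.fract y⁻¹ = y⁻¹ - p := by
    rw [Int.fract, Int.floor_eq_iff.mpr ⟨h2.le, h3⟩]
  have hp : 0 < y⁻¹ - p := by linarith
  unfold a
  rw [if_pos ⟨⟨h0, h1⟩, by simpa [e] using hp.ne'⟩]
  simp only [Nat.add_one_sub_one, Function.iterate_one, Option.some.injEq, e]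
  rw [Nat.floor_eq_iff (by positivity)]
  exact ⟨h4, h5⟩

lemma st0 : state (75 / 377) 0 = some ([6], []) := by
  rw [state, a_one (75 / 377) 5 (by norm_num) (by norm_num) (by norm_num) (by norm_num)]
  rfl

lemma b1 : a 1 (75 / 377 - val [6]) = some 30 := by
  apply a_one <;> norm_num [val]

lemma st1 : state (75 / 377) 1 = some ([6, 27], [30]) := by
  have : a 2 (75 / 377 - val [30]) = some 26 := by
    apply a_two _ 6 <;> norm_num [val]
  rw [state, st0]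
  simp only [Option.bind_some, zero_add, b1, List.nil_append, this]
  rfl

theorem result : ¬ ∀ x ∈ Set.Ioc (0 : ℝ) 1, ∀ n : ℕ, 1 ≤ n →
    (∀ u v : ℕ, c x n = some u → c x (n + 1) = some v → u ≤ v) ∧
    (∀ u v : ℕ, b x n = some u → b x (n + 1) = some v → u ≤ v) := by
  intro h
  have h1 := (h (75 / 377) (by norm_num) 1 le_rfl).2 30 28 ?_ ?_
  · omega
  · simp only [b, Nat.sub_self, st0, Option.bind_some, b1]
  · simp only [b, Nat.add_one_sub_one, st1, Option.bind_some]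
    apply a_two _ 30 <;> norm_num [val]

end Pool.Agent.Results.MP_7100ec_nt.Counterexample
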